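import Mathlib

/-!
# Polyhedral spaces and norm-attaining elements of `L₁(μ, Y)`
-/

set_option autoImplicit false

open MeasureTheory

namespace Pool.Agent.Lib.MP_ace873

/-- A real normed space is polyhedral if the closed unit ball of each of its finite-dimensional
subspaces is a polytope, i.e. the convex hull of a finite set. -/
def IsPolyhedral (Y : Type*) [NormedAddCommGroup Y] [NormedSpace ℝ Y] : Prop :=
  ∀ E : Submodule ℝ Y, FiniteDimensional ℝ E →
    ∃ F : Set Y, F.Finite ∧ (E : Set Y) ∩ Metric.closedBall 0 1 = convexHull ℝ F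

/-- An element `f` of the Bochner space `L₁(μ, Y)` (which is the completed projective tensor
product of `L₁(μ)` and `Y`) is norm-attaining if `f(ω) = ∑ gᵢ(ω) yᵢ` a.e. with `gᵢ ∈ L₁(μ)`,
`yᵢ ∈ Y` and `‖f‖ = ∑ ‖gᵢ‖₁ ‖yᵢ‖`. -/
def IsNormAttaining {Ω : Type*} [MeasurableSpace Ω] {Y : Type*} [NormedAddCommGroup Y]
    [NormedSpace ℝ Y] {μ : Measure Ω} (f : Lp Y 1 μ) : Prop :=
  ∃ (g : ℕ → Lp ℝ 1 μ) (y : ℕ → Y),
    (∀ᵐ ω ∂μ, HasSum (fun i => g i ω • y i) (f ω)) ∧ HasSum (fun i => ‖g i‖ * ‖y i‖) ‖f‖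

end Pool.Agent.Lib.MP_ace873
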