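import Pool.Agent.Lib.MP_ace873.Defs

/-!
# A separable polyhedral space with uncountably many extreme points

The space is `ℝ × c₀(ℕ)` with the norm `‖(a, z)‖ = max (|a|, sup_n (c_n |a| + ∑_{i<n} q_i |z_i| + |z_n|))`
where `y_i = 2^{-(i+2)}`, `q_i = y_i / (1 - y_i)` and `c_n = 1 - ∑_{i<n} q_i y_i - y_n`.
All points `(1, (±y_i))` are extreme points of the unit ball.  The norm is polyhedral because the
limit seminorm `N_∞` can be equal to the norm only at (multiples of) these points, and there the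
seminorms `N_n` satisfy a strict inequality in every direction (lemma `seq_lemma`).
The function `r ↦ pt r` on `[0, 1]` (with Lebesgue measure) takes each extreme point at most once,
which makes an optimal representation impossible.
-/

set_option autoImplicit false

open scoped ZeroAtInfty Topology ENNReal
open Filter MeasureTheory

namespace Pool.Agent.Lib.MP_ace873

/-- `y_i = 2^{-(i+2)}` -/
noncomputable def yv (i : ℕ) : ℝ := (1 / 2 : ℝ) ^ (i + 2)

/-- `q_i = 2^{-(i+2)} / (1 - 2^{-(i+2)})` -/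
noncomputable def q (i : ℕ) : ℝ := yv i / (1 - yv i)

lemma yv_pos (i : ℕ) : 0 < yv i := by unfold yv; positivity

lemma yv_le (i : ℕ) : yv i ≤ 1 / 4 := by
  unfold yv
  rw [pow_add]
  have : (1 / 2 : ℝ) ^ i ≤ 1 := pow_le_one₀ (by norm_num) (by norm_num)
  nlinarith

lemma yv_succ (i : ℕ) : yv (i + 1) = yv i / 2 := by
  unfold yv; rw [pow_add, pow_add, pow_add]; ring

lemma yv_anti {i j : ℕ} (h : i ≤ j) : yv j ≤ yv i := by
  unfold yv
  exact pow_le_pow_of_le_one (by norm_num) (by norm_num) (by omega)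

lemma tendsto_yv : Tendsto yv atTop (𝓝 0) := by
  unfold yv
  exact (tendsto_pow_atTop_nhds_zero_of_lt_one (by norm_num) (by norm_num)).comp
    (tendsto_add_atTop_nat 2)

lemma q_pos (i : ℕ) : 0 < q i := by
  unfold q
  have := yv_pos i
  have := yv_le i
  apply div_pos <;> linarith

lemma q_le (i : ℕ) : q i ≤ 4 / 3 * yv i := by
  unfold q
  have h1 := yv_pos i
  have h2 := yv_le i
  rw [div_le_iff₀ (by linarith)]
  nlinarith

lemma q_le_third (i : ℕ) : q i ≤ 1 / 3 := by
  have h1 := q_le i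
  have h2 := yv_le i
  linarith

lemma sum_yv (n : ℕ) : ∑ i ∈ Finset.range n, yv i = 1 / 2 - 2 * yv n := by
  induction n with
  | zero => simp [yv]; norm_num
  | succ n ih => rw [Finset.sum_range_succ, ih, yv_succ]; ring

lemma sum_q_le (n : ℕ) : ∑ i ∈ Finset.range n, q i ≤ 1 := by
  have h : ∑ i ∈ Finset.range n, q i ≤ ∑ i ∈ Finset.range n, 4 / 3 * yv i :=
    Finset.sum_le_sum fun i _ => q_le i
  rw [← Finset.mul_sum, sum_yv] at h
  have := yv_pos n
  linarith

/-- `c_n = 1 - ∑_{i<n} q_i y_i - y_n` -/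
noncomputable def c (n : ℕ) : ℝ := 1 - ∑ i ∈ Finset.range n, q i * yv i - yv n

lemma c_nonneg (n : ℕ) : 0 ≤ c n := by
  unfold c
  have h : ∑ i ∈ Finset.range n, q i * yv i ≤ ∑ i ∈ Finset.range n, 1 / 3 * yv i :=
    Finset.sum_le_sum fun i _ => mul_le_mul_of_nonneg_right (q_le_third i) (yv_pos i).le
  rw [← Finset.mul_sum, sum_yv] at h
  have := yv_pos n
  have := yv_le n
  linarith

lemma c_le (n : ℕ) : c n ≤ 1 := by
  unfold c
  have : 0 ≤ ∑ i ∈ Finset.range n, q i * yv i :=
    Finset.sum_nonneg fun i _ => mul_nonneg (q_pos i).le (yv_pos i).le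
  have := yv_pos n
  linarith

/-- The key sequence lemma. -/
lemma seq_lemma (d : ℕ → ℝ) (s : ℝ)
    (hs : Tendsto (fun n => ∑ i ∈ Finset.range n, q i * d i) atTop (𝓝 s)) (h0 : 0 ≤ s)
    (h : ∀ n, ∑ i ∈ Finset.range n, q i * d i + d n ≤ s) : ∀ n, d n = 0 := by
  set D : ℕ → ℝ := fun n => s - ∑ i ∈ Finset.range n, q i * d i with hD
  have hD0 : D 0 = s := by simp [hD]
  have hDs : ∀ n, D (n + 1) = D n - q n * d n := by
    intro n; simp only [hD, Finset.sum_range_succ]; ring
  have hdD : ∀ n, d n ≤ D n := by intro n; have := h n; simp only [hD]; linarith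
  have hDt : Tendsto D atTop (𝓝 0) := by
    have : Tendsto (fun n => s - ∑ i ∈ Finset.range n, q i * d i) atTop (𝓝 (s - s)) :=
      tendsto_const_nhds.sub hs
    rwa [sub_self] at this
  set G : ℕ → ℝ := fun n => (1 - 2 * yv n) * D n with hG
  have hGs : ∀ n, G n ≤ G (n + 1) := by
    intro n
    simp only [hG, hDs, yv_succ]
    have h1 := yv_pos n
    have h2 := yv_le n
    have h3 : q n * (1 - yv n) = yv n := by
      unfold q; rw [div_mul_cancel₀]; linarith
    have h4 := hdD n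
    have h5 := q_pos n
    have h6 : (1 - 2 * yv n) * D n = (1 - yv n) * D n - (q n * (1 - yv n)) * D n := by
      rw [h3]; ring
    have h7 : (1 - 2 * (yv n / 2)) * (D n - q n * d n) =
        (1 - yv n) * D n - (q n * (1 - yv n)) * d n := by ring
    rw [h6, h7]
    have h8 : (q n * (1 - yv n)) * d n ≤ (q n * (1 - yv n)) * D n := by
      apply mul_le_mul_of_nonneg_left h4
      rw [h3]; exact h1.le
    linarith
  have hGmono : Monotone G := monotone_nat_of_le_succ hGs
  have hGt : Tendsto G atTop (𝓝 0) := by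
    have : Tendsto (fun n => (1 - 2 * yv n) * D n) atTop (𝓝 ((1 - 2 * 0) * 0)) :=
      (tendsto_const_nhds.sub (tendsto_yv.const_mul 2)).mul hDt
    rwa [mul_zero] at this
  have hG0 : 0 ≤ G 0 := by
    simp only [hG, hD0]
    have h1 := yv_le 0
    apply mul_nonneg _ h0
    linarith
  have hGz : ∀ n, G n = 0 := by
    intro n
    apply le_antisymm
    · exact hGmono.ge_of_tendsto hGt n
    · exact hG0.trans (hGmono (Nat.zero_le n))
  have hDz : ∀ n, D n = 0 := by
    intro n
    have h1 := hGz n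
    simp only [hG] at h1
    rcases mul_eq_zero.1 h1 with h2 | h2
    · exfalso
      have := yv_le n
      linarith
    · exact h2
  intro n
  have h1 := hDs n
  rw [hDz, hDz] at h1
  have h2 : q n * d n = 0 := by linarith
  rcases mul_eq_zero.1 h2 with h3 | h3
  · exact absurd h3 (q_pos n).ne'
  · exact h3

lemma c0r_norm_le {f : C₀(ℕ, ℝ)} {C : ℝ} (hC : 0 ≤ C) : ‖f‖ ≤ C ↔ ∀ n, |f n| ≤ C := by
  rw [← ZeroAtInftyContinuousMap.norm_toBCF_eq_norm, BoundedContinuousFunction.norm_le hC]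
  rfl

lemma c0r_coord_le (f : C₀(ℕ, ℝ)) (n : ℕ) : |f n| ≤ ‖f‖ :=
  (c0r_norm_le (norm_nonneg _)).1 le_rfl n

lemma c0r_tendsto (f : C₀(ℕ, ℝ)) : Tendsto f atTop (𝓝 0) := by
  have h := f.zero_at_infty'
  rw [cocompact_eq_atTop] at h
  exact h

/-- Build an element of `c₀` from a null sequence. -/
def mkC0 (f : ℕ → ℝ) (hf : Tendsto f atTop (𝓝 0)) : C₀(ℕ, ℝ) where
  toFun := f
  continuous_toFun := continuous_of_discreteTopology
  zero_at_infty' := by rw [cocompact_eq_atTop]; exact hf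

@[simp] lemma mkC0_apply (f : ℕ → ℝ) (hf : Tendsto f atTop (𝓝 0)) (n : ℕ) :
    mkC0 f hf n = f n := rfl

/-- The vector space `ℝ × c₀(ℕ)`, to be renormed. -/
def Y : Type := ℝ × C₀(ℕ, ℝ)

noncomputable instance : AddCommGroup Y := inferInstanceAs (AddCommGroup (ℝ × C₀(ℕ, ℝ)))
noncomputable instance : Module ℝ Y := inferInstanceAs (Module ℝ (ℝ × C₀(ℕ, ℝ)))

/-- head coordinate -/
def hd (x : Y) : ℝ := x.1
/-- tail coordinates -/
def tl (x : Y) (i : ℕ) : ℝ := x.2 i
/-- constructor -/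
def mk (a : ℝ) (f : C₀(ℕ, ℝ)) : Y := (a, f)

@[simp] lemma hd_mk (a : ℝ) (f : C₀(ℕ, ℝ)) : hd (mk a f) = a := rfl
@[simp] lemma tl_mk (a : ℝ) (f : C₀(ℕ, ℝ)) (i : ℕ) : tl (mk a f) i = f i := rfl
@[simp] lemma hd_add (x y : Y) : hd (x + y) = hd x + hd y := rfl
@[simp] lemma tl_add (x y : Y) (i : ℕ) : tl (x + y) i = tl x i + tl y i := rfl
@[simp] lemma hd_sub (x y : Y) : hd (x - y) = hd x - hd y := rfl
@[simp] lemma tl_sub (x y : Y) (i : ℕ) : tl (x - y) i = tl x i - tl y i := rfl
@[simp] lemma hd_neg (x : Y) : hd (-x) = - hd x := rfl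
@[simp] lemma tl_neg (x : Y) (i : ℕ) : tl (-x) i = - tl x i := rfl
@[simp] lemma hd_zero : hd (0 : Y) = 0 := rfl
@[simp] lemma tl_zero (i : ℕ) : tl (0 : Y) i = 0 := rfl
@[simp] lemma hd_smul (a : ℝ) (x : Y) : hd (a • x) = a * hd x := rfl
@[simp] lemma tl_smul (a : ℝ) (x : Y) (i : ℕ) : tl (a • x) i = a * tl x i := rfl

lemma Y_ext {x y : Y} (h1 : hd x = hd y) (h2 : ∀ i, tl x i = tl y i) : x = y := by
  apply Prod.ext
  · exact h1
  · exact ZeroAtInftyContinuousMap.ext h2

lemma tl_tendsto (x : Y) : Tendsto (tl x) atTop (𝓝 0) := c0r_tendsto x.2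

/-- The seminorms `N_0 (a, z) = |a|`,
`N_{n+1} (a, z) = c_n |a| + ∑_{i<n} q_i |z_i| + |z_n|`. -/
noncomputable def N : ℕ → Y → ℝ
  | 0, x => |hd x|
  | n + 1, x => c n * |hd x| + ∑ i ∈ Finset.range n, q i * |tl x i| + |tl x n|

lemma N_zero' (x : Y) : N 0 x = |hd x| := rfl
lemma N_succ (n : ℕ) (x : Y) :
    N (n + 1) x = c n * |hd x| + ∑ i ∈ Finset.range n, q i * |tl x i| + |tl x n| := rfl

lemma N_nonneg (n : ℕ) (x : Y) : 0 ≤ N n x := by
  cases n with
  | zero => exact abs_nonneg _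
  | succ n =>
    rw [N_succ]
    have h1 := mul_nonneg (c_nonneg n) (abs_nonneg (hd x))
    have h2 : 0 ≤ ∑ i ∈ Finset.range n, q i * |tl x i| :=
      Finset.sum_nonneg fun i _ => mul_nonneg (q_pos i).le (abs_nonneg _)
    have h3 := abs_nonneg (tl x n)
    linarith

lemma N_add (n : ℕ) (x y : Y) : N n (x + y) ≤ N n x + N n y := by
  cases n with
  | zero => exact abs_add_le _ _
  | succ n =>
    rw [N_succ, N_succ, N_succ]
    have h1 : c n * |hd (x + y)| ≤ c n * |hd x| + c n * |hd y| := by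
      rw [← mul_add]
      exact mul_le_mul_of_nonneg_left (abs_add_le _ _) (c_nonneg n)
    have h2 : ∑ i ∈ Finset.range n, q i * |tl (x + y) i| ≤
        ∑ i ∈ Finset.range n, q i * |tl x i| + ∑ i ∈ Finset.range n, q i * |tl y i| := by
      rw [← Finset.sum_add_distrib]
      refine Finset.sum_le_sum fun i _ => ?_
      rw [← mul_add]
      exact mul_le_mul_of_nonneg_left (abs_add_le _ _) (q_pos i).le
    have h3 : |tl (x + y) n| ≤ |tl x n| + |tl y n| := abs_add_le _ _
    linarith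

lemma N_smul (n : ℕ) (a : ℝ) (x : Y) : N n (a • x) = |a| * N n x := by
  cases n with
  | zero => rw [N_zero', N_zero', hd_smul, abs_mul]
  | succ n =>
    rw [N_succ, N_succ, hd_smul, tl_smul, abs_mul, abs_mul]
    have : ∑ i ∈ Finset.range n, q i * |tl (a • x) i| =
        |a| * ∑ i ∈ Finset.range n, q i * |tl x i| := by
      rw [Finset.mul_sum]
      refine Finset.sum_congr rfl fun i _ => ?_
      rw [tl_smul, abs_mul]; ring
    rw [this]; ring

/-- The sup norm bound of the seminorms. -/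
lemma N_le_of (n : ℕ) (x : Y) (C : ℝ) (h1 : |hd x| ≤ C) (h2 : ∀ i, |tl x i| ≤ C) :
    N n x ≤ 3 * C := by
  have hC : 0 ≤ C := (abs_nonneg _).trans h1
  cases n with
  | zero => rw [N_zero']; linarith
  | succ n =>
    rw [N_succ]
    have h3 : c n * |hd x| ≤ C := by
      calc c n * |hd x| ≤ 1 * C := mul_le_mul (c_le n) h1 (abs_nonneg _) zero_le_one
        _ = C := one_mul C
    have h4 : ∑ i ∈ Finset.range n, q i * |tl x i| ≤ C := by
      calc ∑ i ∈ Finset.range n, q i * |tl x i| ≤ ∑ i ∈ Finset.range n, q i * C :=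
            Finset.sum_le_sum fun i _ => mul_le_mul_of_nonneg_left (h2 i) (q_pos i).le
        _ = (∑ i ∈ Finset.range n, q i) * C := by rw [Finset.sum_mul]
        _ ≤ 1 * C := mul_le_mul_of_nonneg_right (sum_q_le n) hC
        _ = C := one_mul C
    have h5 := h2 n
    linarith

/-- sup norm of the underlying space -/
noncomputable def supn (x : Y) : ℝ := max |x.1| ‖x.2‖

lemma N_le_supn (n : ℕ) (x : Y) : N n x ≤ 3 * supn x :=
  N_le_of n x _ (le_max_left _ _) fun i => (c0r_coord_le x.2 i).trans (le_max_right _ _)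

lemma N_bddAbove (x : Y) : BddAbove (Set.range fun n => N n x) :=
  ⟨3 * supn x, by rintro _ ⟨n, rfl⟩; exact N_le_supn n x⟩

noncomputable instance : Norm Y := ⟨fun x => ⨆ n, N n x⟩

lemma norm_def (x : Y) : ‖x‖ = ⨆ n, N n x := rfl

lemma N_le_norm (n : ℕ) (x : Y) : N n x ≤ ‖x‖ := le_ciSup (N_bddAbove x) n

lemma norm_le_of {x : Y} {C : ℝ} (h : ∀ n, N n x ≤ C) : ‖x‖ ≤ C := ciSup_le h

lemma abs_hd_le (x : Y) : |hd x| ≤ ‖x‖ := N_le_norm 0 x

lemma abs_tl_le (x : Y) (n : ℕ) : |tl x n| ≤ ‖x‖ := by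
  refine le_trans ?_ (N_le_norm (n + 1) x)
  rw [N_succ]
  have h1 := mul_nonneg (c_nonneg n) (abs_nonneg (hd x))
  have h2 : 0 ≤ ∑ i ∈ Finset.range n, q i * |tl x i| :=
    Finset.sum_nonneg fun i _ => mul_nonneg (q_pos i).le (abs_nonneg _)
  linarith

lemma core : NormedSpace.Core ℝ Y where
  norm_nonneg x := (N_nonneg 0 x).trans (N_le_norm 0 x)
  norm_smul a x := by
    rw [norm_def, norm_def, Real.norm_eq_abs, Real.mul_iSup_of_nonneg (abs_nonneg a)]
    simp only [N_smul]
  norm_triangle x y := norm_le_of fun n =>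
    (N_add n x y).trans (add_le_add (N_le_norm n x) (N_le_norm n y))
  norm_eq_zero_iff x := by
    constructor
    · intro h
      apply Y_ext
      · have := abs_hd_le x
        rw [h] at this
        simpa using abs_nonpos_iff.1 this
      · intro i
        have := abs_tl_le x i
        rw [h] at this
        simpa using abs_nonpos_iff.1 this
    · rintro rfl
      apply le_antisymm
      · apply norm_le_of
        intro n
        have := N_le_of n (0 : Y) 0 (by simp) (by simp)
        simpa using this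
      · exact (N_nonneg 0 _).trans (N_le_norm 0 _)

noncomputable instance : NormedAddCommGroup Y := NormedAddCommGroup.ofCore core
noncomputable instance : NormedSpace ℝ Y := NormedSpace.ofCore core

lemma norm_le_supn (x : Y) : ‖x‖ ≤ 3 * supn x := norm_le_of fun n => N_le_supn n x

lemma supn_le_norm (x : Y) : supn x ≤ ‖x‖ := by
  refine max_le (abs_hd_le x) ?_
  rw [c0r_norm_le (norm_nonneg x)]
  exact fun n => abs_tl_le x n

/-- identity map to the space with the usual norm -/
noncomputable def toProdₗ : Y ≃ₗ[ℝ] ℝ × C₀(ℕ, ℝ) where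
  toFun x := (x.1, x.2)
  invFun x := mk x.1 x.2
  map_add' _ _ := rfl
  map_smul' _ _ := rfl
  left_inv _ := rfl
  right_inv _ := rfl

/-- identity map as a topological isomorphism -/
noncomputable def toProd : Y ≃L[ℝ] ℝ × C₀(ℕ, ℝ) :=
  toProdₗ.toContinuousLinearEquivOfBounds 1 3
    (fun x => by
      rw [one_mul]
      exact supn_le_norm x)
    (fun x => norm_le_supn (mk x.1 x.2))

instance : CompleteSpace Y :=
  (completeSpace_congr (e := toProd.toEquiv) toProd.isUniformEmbedding).2 inferInstance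

lemma summable_yv : Summable yv := by
  unfold yv
  simp only [pow_add]
  exact summable_geometric_two.mul_right _

lemma summable_q : Summable q :=
  Summable.of_nonneg_of_le (fun i => (q_pos i).le) q_le (summable_yv.mul_left _)

lemma summable_q_mul (d : ℕ → ℝ) (C : ℝ) (h : ∀ i, |d i| ≤ C) : Summable fun i => q i * d i := by
  refine Summable.of_norm_bounded (summable_q.mul_right C) fun i => ?_
  rw [Real.norm_eq_abs, abs_mul, abs_of_pos (q_pos i)]
  exact mul_le_mul_of_nonneg_left (h i) (q_pos i).le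

lemma tsum_q_le : ∑' i, q i ≤ 1 := by
  refine le_of_tendsto summable_q.hasSum.tendsto_sum_nat ?_
  exact Eventually.of_forall fun n => sum_q_le n

/-- defect sequence -/
noncomputable def dd (x : Y) (i : ℕ) : ℝ := |tl x i| - yv i * |hd x|

lemma dd_abs_le (x : Y) (i : ℕ) : |dd x i| ≤ 2 * ‖x‖ := by
  unfold dd
  have h1 := abs_tl_le x i
  have h2 := abs_hd_le x
  have h3 := abs_nonneg (tl x i)
  have h4 := abs_nonneg (hd x)
  have h5 := yv_pos i
  have h6 := yv_le i
  rw [abs_le]
  constructor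
  · nlinarith
  · nlinarith

lemma dd_tendsto (x : Y) : Tendsto (dd x) atTop (𝓝 0) := by
  have h1 : Tendsto (fun i => |tl x i|) atTop (𝓝 |0|) := (tl_tendsto x).abs
  have h2 : Tendsto (fun i => yv i * |hd x|) atTop (𝓝 (0 * |hd x|)) := tendsto_yv.mul_const _
  have h3 := h1.sub h2
  rw [abs_zero, zero_mul, sub_zero] at h3
  exact h3

lemma N_succ_eq (n : ℕ) (x : Y) :
    N (n + 1) x = |hd x| + ∑ i ∈ Finset.range n, q i * dd x i + dd x n := by
  rw [N_succ]
  unfold c dd
  have : ∑ i ∈ Finset.range n, q i * (|tl x i| - yv i * |hd x|) =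
      ∑ i ∈ Finset.range n, q i * |tl x i| - (∑ i ∈ Finset.range n, q i * yv i) * |hd x| := by
    rw [Finset.sum_mul, ← Finset.sum_sub_distrib]
    refine Finset.sum_congr rfl fun i _ => ?_
    ring
  rw [this]; ring

/-- limit seminorm -/
noncomputable def Ninf (x : Y) : ℝ := |hd x| + ∑' i, q i * dd x i

lemma summable_dd (x : Y) : Summable fun i => q i * dd x i := summable_q_mul _ _ (dd_abs_le x)

lemma N_tendsto (x : Y) : Tendsto (fun n => N n x) atTop (𝓝 (Ninf x)) := by
  rw [← tendsto_add_atTop_iff_nat 1]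
  simp only [N_succ_eq]
  have h1 := (summable_dd x).hasSum.tendsto_sum_nat
  have h2 := dd_tendsto x
  have h3 := (h1.const_add |hd x|).add h2
  simpa [Ninf] using h3

lemma N_lip (n : ℕ) (x z : Y) : N n z ≤ N n x + ‖z - x‖ := by
  have h1 := N_add n x (z - x)
  have h2 : x + (z - x) = z := by abel
  rw [h2] at h1
  linarith [N_le_norm n (z - x)]

lemma local_A (x : Y) (hx : ‖x‖ = 1) (hlt : Ninf x < 1) :
    ∃ r > 0, ∃ m : ℕ, ∀ z : Y, ‖z - x‖ < r → ∀ n, ∃ k ≤ m, N n z ≤ N k z := by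
  set δ := (1 - Ninf x) / 2 with hδ
  have hδ0 : 0 < δ := by rw [hδ]; linarith
  have h1 : ∀ᶠ n in atTop, N n x < 1 - δ := by
    have h0 : Ninf x < 1 - δ := by rw [hδ]; linarith
    exact (N_tendsto x).eventually (gt_mem_nhds h0)
  obtain ⟨m, hm⟩ := eventually_atTop.1 h1
  have h2 : 1 - δ / 2 < ⨆ n, N n x := by
    rw [← norm_def, hx]; linarith
  obtain ⟨k, hk⟩ := exists_lt_of_lt_ciSup h2
  refine ⟨δ / 8, by positivity, max m k, fun z hz n => ?_⟩
  by_cases hn : n ≤ max m k
  · exact ⟨n, hn, le_rfl⟩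
  · push Not at hn
    refine ⟨k, le_max_right _ _, ?_⟩
    have h3 := hm n (le_trans (le_max_left _ _) hn.le)
    have h4 := N_lip n x z
    have h5 := N_lip k z x
    rw [norm_sub_rev] at h5
    linarith

/-- linearization at a corner with sign pattern `ξ` -/
noncomputable def L (ξ : ℕ → ℝ) : ℕ → Y → ℝ
  | 0, _ => 0
  | n + 1, v => ∑ i ∈ Finset.range n, q i * (ξ i * tl v i) + ξ n * tl v n

lemma L_zero' (ξ : ℕ → ℝ) (v : Y) : L ξ 0 v = 0 := rfl
lemma L_succ (ξ : ℕ → ℝ) (n : ℕ) (v : Y) :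
    L ξ (n + 1) v = ∑ i ∈ Finset.range n, q i * (ξ i * tl v i) + ξ n * tl v n := rfl

lemma L_sub (ξ : ℕ → ℝ) (n : ℕ) (v w : Y) : L ξ n (v - w) = L ξ n v - L ξ n w := by
  cases n with
  | zero => simp [L_zero']
  | succ n =>
    rw [L_succ, L_succ, L_succ, tl_sub]
    have : ∑ i ∈ Finset.range n, q i * (ξ i * tl (v - w) i) =
        ∑ i ∈ Finset.range n, q i * (ξ i * tl v i) -
          ∑ i ∈ Finset.range n, q i * (ξ i * tl w i) := by
      rw [← Finset.sum_sub_distrib]
      refine Finset.sum_congr rfl fun i _ => ?_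
      rw [tl_sub]; ring
    rw [this]; ring

lemma L_smul (ξ : ℕ → ℝ) (n : ℕ) (a : ℝ) (v : Y) : L ξ n (a • v) = a * L ξ n v := by
  cases n with
  | zero => simp [L_zero']
  | succ n =>
    rw [L_succ, L_succ, tl_smul, mul_add, Finset.mul_sum]
    congr 1
    · refine Finset.sum_congr rfl fun i _ => ?_
      rw [tl_smul]; ring
    · ring

lemma L_le_N (ξ : ℕ → ℝ) (hξ : ∀ i, |ξ i| = 1) (n : ℕ) (v : Y) : L ξ n v ≤ N n v := by
  have hterm : ∀ i, ξ i * tl v i ≤ |tl v i| := by
    intro i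
    calc ξ i * tl v i ≤ |ξ i * tl v i| := le_abs_self _
      _ = |tl v i| := by rw [abs_mul, hξ, one_mul]
  cases n with
  | zero => rw [L_zero']; exact N_nonneg 0 v
  | succ n =>
    rw [L_succ, N_succ]
    have h1 := mul_nonneg (c_nonneg n) (abs_nonneg (hd v))
    have h2 : ∑ i ∈ Finset.range n, q i * (ξ i * tl v i) ≤ ∑ i ∈ Finset.range n, q i * |tl v i| :=
      Finset.sum_le_sum fun i _ => mul_le_mul_of_nonneg_left (hterm i) (q_pos i).le
    have h3 := hterm n
    linarith

lemma continuous_tl (i : ℕ) : Continuous fun v : Y => tl v i := by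
  have : LipschitzWith 1 (fun v : Y => tl v i) := by
    apply LipschitzWith.of_dist_le_mul
    intro v w
    rw [Real.dist_eq, dist_eq_norm, NNReal.coe_one, one_mul, ← tl_sub]
    exact abs_tl_le _ _
  exact this.continuous

lemma continuous_hd : Continuous hd := by
  have : LipschitzWith 1 hd := by
    apply LipschitzWith.of_dist_le_mul
    intro v w
    rw [Real.dist_eq, dist_eq_norm, NNReal.coe_one, one_mul, ← hd_sub]
    exact abs_hd_le _
  exact this.continuous

lemma continuous_L (ξ : ℕ → ℝ) (n : ℕ) : Continuous (L ξ n) := by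
  cases n with
  | zero => exact continuous_const
  | succ n =>
    change Continuous fun v => ∑ i ∈ Finset.range n, q i * (ξ i * tl v i) + ξ n * tl v n
    refine Continuous.add ?_ (continuous_const.mul (continuous_tl n))
    exact continuous_finsetSum _ fun i _ => continuous_const.mul
      (continuous_const.mul (continuous_tl i))

/-- limit of the linearizations -/
noncomputable def Linf (ξ : ℕ → ℝ) (v : Y) : ℝ := ∑' i, q i * (ξ i * tl v i)

lemma summable_Linf (ξ : ℕ → ℝ) (hξ : ∀ i, |ξ i| = 1) (v : Y) :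
    Summable fun i => q i * (ξ i * tl v i) := by
  refine summable_q_mul _ ‖v‖ fun i => ?_
  rw [abs_mul, hξ, one_mul]
  exact abs_tl_le v i

lemma L_tendsto (ξ : ℕ → ℝ) (hξ : ∀ i, |ξ i| = 1) (v : Y) :
    Tendsto (fun n => L ξ n v) atTop (𝓝 (Linf ξ v)) := by
  rw [← tendsto_add_atTop_iff_nat 1]
  simp only [L_succ]
  have h1 := (summable_Linf ξ hξ v).hasSum.tendsto_sum_nat
  have h2 : Tendsto (fun n => ξ n * tl v n) atTop (𝓝 0) := by
    rw [tendsto_zero_iff_norm_tendsto_zero]
    have : (fun n => ‖ξ n * tl v n‖) = fun n => |tl v n| := by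
      funext n
      rw [Real.norm_eq_abs, abs_mul, hξ, one_mul]
    rw [this]
    simpa using (tl_tendsto v).abs
  simpa [Linf] using h1.add h2

lemma Linf_lip (ξ : ℕ → ℝ) (hξ : ∀ i, |ξ i| = 1) (v w : Y) :
    Linf ξ v - Linf ξ w ≤ ‖v - w‖ := by
  refine le_of_tendsto ((L_tendsto ξ hξ v).sub (L_tendsto ξ hξ w)) ?_
  refine Eventually.of_forall fun n => ?_
  rw [← L_sub]
  exact (L_le_N ξ hξ n _).trans (N_le_norm n _)

lemma continuous_Linf (ξ : ℕ → ℝ) (hξ : ∀ i, |ξ i| = 1) : Continuous (Linf ξ) := by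
  have : LipschitzWith 1 (Linf ξ) := by
    apply LipschitzWith.of_dist_le_mul
    intro v w
    rw [Real.dist_eq, dist_eq_norm, NNReal.coe_one, one_mul, abs_le]
    have h1 := Linf_lip ξ hξ v w
    have h2 := Linf_lip ξ hξ w v
    rw [norm_sub_rev] at h2
    constructor <;> linarith
  exact this.continuous

lemma Linf_smul (ξ : ℕ → ℝ) (a : ℝ) (v : Y) : Linf ξ (a • v) = a * Linf ξ v := by
  unfold Linf
  rw [← tsum_mul_left]
  refine tsum_congr fun i => ?_
  rw [tl_smul]; ring

lemma isCompact_ball (E : Submodule ℝ Y) [FiniteDimensional ℝ E] :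
    IsCompact ((E : Set Y) ∩ Metric.closedBall 0 1) := by
  have : ProperSpace E := FiniteDimensional.proper ℝ E
  have h1 : IsCompact (Metric.closedBall (0 : E) 1) := isCompact_closedBall _ _
  have h2 := h1.image (continuous_subtype_val (p := fun x => x ∈ E))
  convert! h2 using 1
  ext x
  simp only [Set.mem_inter_iff, SetLike.mem_coe, Metric.mem_closedBall, dist_zero_right,
    Set.mem_image, Subtype.exists, Submodule.coe_norm]
  constructor
  · rintro ⟨h3, h4⟩
    exact ⟨x, h3, by simpa using h4, rfl⟩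
  · rintro ⟨y, h3, h4, rfl⟩
    exact ⟨h3, by simpa using h4⟩

lemma B1 (E : Submodule ℝ Y) [FiniteDimensional ℝ E] (ξ : ℕ → ℝ) (hξ : ∀ i, |ξ i| = 1) :
    ∃ m₀ : ℕ, ∃ δ > 0, ∀ v ∈ E, hd v = 0 → ∃ k ≤ m₀, Linf ξ v + δ * ‖v‖ ≤ L ξ k v := by
  set S : Set Y := ((E : Set Y) ∩ Metric.closedBall 0 1) ∩ {v | hd v = 0 ∧ ‖v‖ = 1} with hS
  have hScomp : IsCompact S := by
    apply (isCompact_ball E).inter_right
    exact (isClosed_eq continuous_hd continuous_const).inter
      (isClosed_eq continuous_norm continuous_const)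
  set U : ℕ → Set Y := fun m => {v | ∃ k ≤ m, Linf ξ v + 1 / ((m : ℝ) + 1) < L ξ k v} with hU
  have hUo : ∀ m, IsOpen (U m) := by
    intro m
    have : U m = ⋃ k ∈ Set.Iic m, {v | Linf ξ v + 1 / ((m : ℝ) + 1) < L ξ k v} := by
      ext v; simp [hU]
    rw [this]
    refine isOpen_biUnion fun k _ => ?_
    exact isOpen_lt ((continuous_Linf ξ hξ).add continuous_const) (continuous_L ξ k)
  have hmono : Monotone U := by
    intro m m' hmm v hv
    obtain ⟨k, hk, h⟩ := hv
    refine ⟨k, hk.trans hmm, ?_⟩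
    have h1 : 1 / ((m' : ℝ) + 1) ≤ 1 / ((m : ℝ) + 1) := by
      apply one_div_le_one_div_of_le (by positivity)
      have : (m : ℝ) ≤ m' := by exact_mod_cast hmm
      linarith
    linarith
  have hcov : S ⊆ ⋃ m, U m := by
    intro v hv
    obtain ⟨_, hv0, hv1⟩ := hv
    have hex : ∃ k, Linf ξ v < L ξ k v := by
      by_contra hcon
      push Not at hcon
      have h1 := seq_lemma (fun i => ξ i * tl v i) (Linf ξ v)
        (summable_Linf ξ hξ v).hasSum.tendsto_sum_nat (by simpa [L_zero'] using hcon 0)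
        (fun n => by simpa [L_succ] using hcon (n + 1))
      have h2 : v = 0 := by
        apply Y_ext
        · simpa using hv0
        · intro i
          have h3 := h1 i
          have h4 : ξ i ≠ 0 := by
            intro h; have := hξ i; rw [h] at this; simp at this
          simpa [h4] using h3
      rw [h2, norm_zero] at hv1
      exact zero_ne_one hv1
    obtain ⟨k, hk⟩ := hex
    obtain ⟨j, hj⟩ := exists_nat_one_div_lt (sub_pos.2 hk)
    refine Set.mem_iUnion.2 ⟨max k j, ⟨k, le_max_left _ _, ?_⟩⟩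
    have h1 : 1 / (((max k j : ℕ) : ℝ) + 1) ≤ 1 / ((j : ℝ) + 1) := by
      apply one_div_le_one_div_of_le (by positivity)
      have : (j : ℝ) ≤ (max k j : ℕ) := by exact_mod_cast le_max_right _ _
      linarith
    linarith
  obtain ⟨m₀, hm₀⟩ := hScomp.elim_directed_cover U hUo hcov (hmono.directed_le)
  refine ⟨m₀, 1 / ((m₀ : ℝ) + 1), by positivity, fun v hvE hv0 => ?_⟩
  by_cases hv : v = 0
  · refine ⟨0, Nat.zero_le _, ?_⟩
    rw [hv]
    simp [Linf, L_zero']
  · have hnv : 0 < ‖v‖ := norm_pos_iff.2 hv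
    have hmem : (‖v‖⁻¹ • v) ∈ S := by
      have hn1 : ‖(‖v‖⁻¹ • v)‖ = 1 := by
        rw [norm_smul, norm_inv, norm_norm, inv_mul_cancel₀ hnv.ne']
      refine ⟨⟨E.smul_mem _ hvE, ?_⟩, ?_, hn1⟩
      · simp [hn1]
      · simp [hv0]
    obtain ⟨k, hk, hlt⟩ := hm₀ hmem
    refine ⟨k, hk, ?_⟩
    rw [Linf_smul, L_smul] at hlt
    have h1 : ‖v‖ * (‖v‖⁻¹ * Linf ξ v + 1 / ((m₀ : ℝ) + 1)) ≤ ‖v‖ * (‖v‖⁻¹ * L ξ k v) :=
      mul_le_mul_of_nonneg_left hlt.le hnv.le
    rw [mul_add, ← mul_assoc, ← mul_assoc, mul_inv_cancel₀ hnv.ne', one_mul, one_mul] at h1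
    linarith

lemma B2 (E : Submodule ℝ Y) [FiniteDimensional ℝ E] (η : ℝ) (hη : 0 < η) :
    ∃ m : ℕ, ∀ v ∈ E, ∀ i, m ≤ i → |tl v i| ≤ η * ‖v‖ := by
  obtain ⟨t, htsub, htfin, htcov⟩ := (isCompact_ball E).finite_cover_balls (half_pos hη)
  have h1 : ∀ x : Y, ∃ M : ℕ, ∀ i, M ≤ i → |tl x i| < η / 2 := by
    intro x
    have := (tl_tendsto x)
    rw [Metric.tendsto_atTop] at this
    obtain ⟨M, hM⟩ := this (η / 2) (half_pos hη)
    exact ⟨M, fun i hi => by simpa using hM i hi⟩
  choose M hM using h1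
  obtain ⟨m, hm⟩ := (htfin.image M).bddAbove
  refine ⟨m, fun v hv i hi => ?_⟩
  by_cases hv0 : v = 0
  · rw [hv0]; simp
  · have hnv : 0 < ‖v‖ := norm_pos_iff.2 hv0
    have hmem : (‖v‖⁻¹ • v) ∈ (E : Set Y) ∩ Metric.closedBall 0 1 := by
      refine ⟨E.smul_mem _ hv, ?_⟩
      rw [Metric.mem_closedBall, dist_zero_right, norm_smul, norm_inv, norm_norm,
        inv_mul_cancel₀ hnv.ne']
    obtain ⟨x, hx, hxb⟩ := Set.mem_iUnion₂.1 (htcov hmem)
    rw [Metric.mem_ball, dist_eq_norm] at hxb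
    have h2 := hM x i ((hm (Set.mem_image_of_mem M hx)).trans hi)
    have h3 := abs_tl_le (‖v‖⁻¹ • v - x) i
    rw [tl_sub, tl_smul] at h3
    have h4 : |‖v‖⁻¹ * tl v i| < η := by
      have : |‖v‖⁻¹ * tl v i| ≤ |‖v‖⁻¹ * tl v i - tl x i| + |tl x i| := by
        have := abs_add_le (‖v‖⁻¹ * tl v i - tl x i) (tl x i)
        rwa [sub_add_cancel] at this
      linarith
    rw [abs_mul, abs_of_pos (inv_pos.2 hnv), inv_mul_lt_iff₀ hnv] at h4
    linarith

/-- structure of points where the limit seminorm equals the norm -/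
lemma corner_structure (x : Y) (hx : ‖x‖ = 1) (h : Ninf x = 1) :
    |hd x| = 1 ∧ ∀ i, |tl x i| = yv i := by
  have h0 : |hd x| ≤ 1 := hx ▸ abs_hd_le x
  have hs : ∑' i, q i * dd x i = 1 - |hd x| := by
    have := h
    unfold Ninf at this
    linarith
  have hd0 := seq_lemma (dd x) (1 - |hd x|) (hs ▸ (summable_dd x).hasSum.tendsto_sum_nat)
    (by linarith) (fun n => by
      have := N_le_norm (n + 1) x
      rw [N_succ_eq, hx] at this
      linarith)
  have h1 : |hd x| = 1 := by
    have : ∑' i, q i * dd x i = 0 := by simp [hd0]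
    rw [this] at hs
    linarith
  refine ⟨h1, fun i => ?_⟩
  have := hd0 i
  unfold dd at this
  rw [h1] at this
  linarith

lemma tail_bound (ξ : ℕ → ℝ) (hξ : ∀ i, |ξ i| = 1) (v : Y) (n : ℕ) (ρ : ℝ)
    (h : ∀ i, n ≤ i → |tl v i| ≤ ρ) :
    ∑ i ∈ Finset.range n, q i * (ξ i * tl v i) ≤ Linf ξ v + ρ := by
  have hs := summable_Linf ξ hξ v
  have h1 := hs.sum_add_tsum_nat_add n
  have h2 : -ρ ≤ ∑' i, q (i + n) * (ξ (i + n) * tl v (i + n)) := by
    have hρ : 0 ≤ ρ := (abs_nonneg _).trans (h n le_rfl)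
    have hq : Summable fun i => q (i + n) := (summable_nat_add_iff n).2 summable_q
    have h3 : ∑' i, q (i + n) * (-ρ) ≤ ∑' i, q (i + n) * (ξ (i + n) * tl v (i + n)) := by
      refine Summable.tsum_le_tsum (fun i => ?_) (hq.mul_right _) ((summable_nat_add_iff n).2 hs)
      apply mul_le_mul_of_nonneg_left _ (q_pos _).le
      have h4 := h (i + n) (Nat.le_add_left n i)
      have h5 : |ξ (i + n) * tl v (i + n)| ≤ ρ := by rw [abs_mul, hξ, one_mul]; exact h4
      exact (abs_le.1 h5).1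
    refine le_trans ?_ h3
    rw [tsum_mul_right]
    have h6 : ∑' i, q (i + n) ≤ 1 := by
      have h7 := summable_q.sum_add_tsum_nat_add n
      have h8 : 0 ≤ ∑ i ∈ Finset.range n, q i := Finset.sum_nonneg fun i _ => (q_pos i).le
      have h9 := tsum_q_le
      linarith
    nlinarith
  unfold Linf
  linarith

lemma local_B (E : Submodule ℝ Y) [FiniteDimensional ℝ E] (x : Y) (hxE : x ∈ E)
    (hx : ‖x‖ = 1) (h : Ninf x = 1) :
    ∃ r > 0, ∃ m : ℕ, ∀ z ∈ E, ‖z - x‖ < r → ∀ n, ∃ k ≤ m, N n z ≤ N k z := by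
  obtain ⟨hxa, hxi⟩ := corner_structure x hx h
  set ξ : ℕ → ℝ := fun i => tl x i / yv i with hξdef
  have hξ : ∀ i, |ξ i| = 1 := by
    intro i
    simp only [hξdef]
    rw [abs_div, hxi, abs_of_pos (yv_pos i), div_self (yv_pos i).ne']
  have hξx : ∀ i, ξ i * tl x i = yv i := by
    intro i
    simp only [hξdef]
    have h1 : tl x i * tl x i = yv i * yv i := by
      have := hxi i
      rw [← abs_mul_abs_self (tl x i), this]
    rw [div_mul_eq_mul_div, h1, mul_div_assoc, div_self (yv_pos i).ne', mul_one]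
  have haa : hd x * hd x = 1 := by
    rw [← abs_mul_abs_self (hd x), hxa, one_mul]
  obtain ⟨m₀, δ, hδ, hB1⟩ := B1 E ξ hξ
  obtain ⟨m₁, hB2⟩ := B2 E (δ / 6) (by positivity)
  set m := max m₀ m₁ with hm
  refine ⟨yv m / 4, by have := yv_pos m; positivity, m, fun z hzE hz n => ?_⟩
  by_cases hnm : n ≤ m
  · exact ⟨n, hnm, le_rfl⟩
  push Not at hnm
  obtain ⟨n', rfl⟩ : ∃ n', n = n' + 1 := ⟨n - 1, by omega⟩
  have hn'm : m ≤ n' := by omega
  set τ := hd x * hd z with hτ
  set v := z - τ • x with hv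
  have hvE : v ∈ E := E.sub_mem hzE (E.smul_mem _ hxE)
  have hvhd : hd v = 0 := by
    rw [hv, hd_sub, hd_smul, hτ]
    have : hd x * hd z * hd x = (hd x * hd x) * hd z := by ring
    rw [this, haa]; ring
  have hym := yv_pos m
  have hym4 := yv_le m
  have hτ1 : |τ - 1| ≤ ‖z - x‖ := by
    have h1 : τ - 1 = hd x * (hd z - hd x) := by rw [hτ, mul_sub, haa]
    rw [h1, abs_mul, hxa, one_mul, ← hd_sub]
    exact abs_hd_le _
  have hτhalf : 1 / 2 ≤ τ := by
    have := (abs_le.1 hτ1).1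
    linarith
  have hvnorm : ‖v‖ ≤ 2 * ‖z - x‖ := by
    have h1 : v = (z - x) - (τ - 1) • x := by
      rw [hv, sub_smul, one_smul]; abel
    rw [h1]
    calc ‖(z - x) - (τ - 1) • x‖ ≤ ‖z - x‖ + ‖(τ - 1) • x‖ := norm_sub_le _ _
      _ = ‖z - x‖ + |τ - 1| := by rw [norm_smul, hx, mul_one, Real.norm_eq_abs]
      _ ≤ 2 * ‖z - x‖ := by linarith
  have hzi : ∀ i, ξ i * tl z i = τ * yv i + ξ i * tl v i := by
    intro i
    rw [hv, tl_sub, tl_smul]
    have h1 := hξx i
    have h2 : ξ i * (tl z i - τ * tl x i) = ξ i * tl z i - τ * (ξ i * tl x i) := by ring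
    rw [h2, h1]
    ring
  have habs_z : ∀ i, |tl z i| = |τ * yv i + ξ i * tl v i| := by
    intro i
    rw [← hzi, abs_mul, hξ, one_mul]
  have hza : |hd z| = τ := by
    have h1 : |τ| = |hd z| := by rw [hτ, abs_mul, hxa, one_mul]
    rw [← h1, abs_of_pos (by linarith)]
  -- lower bound
  have hlow : ∀ k, τ + L ξ k v ≤ N k z := by
    intro k
    cases k with
    | zero => rw [L_zero', N_zero', hza, add_zero]
    | succ k =>
      rw [L_succ, N_succ, hza]
      have h1 : ∀ i, τ * yv i + ξ i * tl v i ≤ |tl z i| := by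
        intro i
        rw [habs_z]; exact le_abs_self _
      have h2 : ∑ i ∈ Finset.range k, q i * (τ * yv i + ξ i * tl v i) ≤
          ∑ i ∈ Finset.range k, q i * |tl z i| :=
        Finset.sum_le_sum fun i _ => mul_le_mul_of_nonneg_left (h1 i) (q_pos i).le
      have h3 : ∑ i ∈ Finset.range k, q i * (τ * yv i + ξ i * tl v i) =
          τ * ∑ i ∈ Finset.range k, q i * yv i + ∑ i ∈ Finset.range k, q i * (ξ i * tl v i) := by
        rw [Finset.mul_sum, ← Finset.sum_add_distrib]
        exact Finset.sum_congr rfl fun i _ => by ring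
      have h4 := h1 k
      have h5 : c k * τ = τ - τ * ∑ i ∈ Finset.range k, q i * yv i - τ * yv k := by
        unfold c; ring
      rw [h5]
      linarith
  -- upper bound
  have hv4 : ∀ i, |tl v i| ≤ 2 * ‖z - x‖ := fun i => (abs_tl_le v i).trans hvnorm
  have hup1 : ∀ i, |tl z i| ≤ τ * yv i + ξ i * tl v i + 2 * (δ / 6 * ‖v‖) := by
    intro i
    rw [habs_z]
    have hδv : 0 ≤ δ / 6 * ‖v‖ := by positivity
    have hab : |ξ i * tl v i| = |tl v i| := by rw [abs_mul, hξ, one_mul]
    by_cases him : i < m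
    · have h1 : yv m ≤ yv i := yv_anti him.le
      have h2 : 0 ≤ τ * yv i + ξ i * tl v i := by
        have h3 : -(2 * ‖z - x‖) ≤ ξ i * tl v i := by
          have := neg_abs_le (ξ i * tl v i)
          rw [hab] at this
          linarith [hv4 i]
        have h4 : yv i / 2 ≤ τ * yv i := by
          have := mul_le_mul_of_nonneg_right hτhalf (yv_pos i).le
          linarith
        linarith
      rw [abs_of_nonneg h2]
      linarith
    · push Not at him
      have h1 := hB2 v hvE i (le_trans (le_max_right _ _) him)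
      have h2 : |τ * yv i + ξ i * tl v i| ≤ τ * yv i + |tl v i| := by
        calc |τ * yv i + ξ i * tl v i| ≤ |τ * yv i| + |ξ i * tl v i| := abs_add_le _ _
          _ = τ * yv i + |tl v i| := by
            rw [hab, abs_of_nonneg (mul_nonneg (by linarith) (yv_pos i).le)]
      have h3 : -|tl v i| ≤ ξ i * tl v i := by
        rw [← hab]; exact neg_abs_le _
      linarith
  have hup : N (n' + 1) z ≤ τ + Linf ξ v + δ * ‖v‖ := by
    rw [N_succ, hza]
    set ρ := δ / 6 * ‖v‖ with hρ
    have hρ0 : 0 ≤ ρ := by positivity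
    have h2 : ∑ i ∈ Finset.range n', q i * |tl z i| ≤
        ∑ i ∈ Finset.range n', q i * (τ * yv i + ξ i * tl v i + 2 * ρ) :=
      Finset.sum_le_sum fun i _ => mul_le_mul_of_nonneg_left (hup1 i) (q_pos i).le
    have h3 : ∑ i ∈ Finset.range n', q i * (τ * yv i + ξ i * tl v i + 2 * ρ) =
        τ * ∑ i ∈ Finset.range n', q i * yv i + ∑ i ∈ Finset.range n', q i * (ξ i * tl v i)
          + (∑ i ∈ Finset.range n', q i) * (2 * ρ) := by
      rw [Finset.mul_sum, Finset.sum_mul, ← Finset.sum_add_distrib, ← Finset.sum_add_distrib]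
      exact Finset.sum_congr rfl fun i _ => by ring
    have h4 := hup1 n'
    have h5 : c n' * τ = τ - τ * ∑ i ∈ Finset.range n', q i * yv i - τ * yv n' := by
      unfold c; ring
    have h6 : (∑ i ∈ Finset.range n', q i) * (2 * ρ) ≤ 1 * (2 * ρ) :=
      mul_le_mul_of_nonneg_right (sum_q_le n') (by positivity)
    have h7 : ∀ i, n' ≤ i → |tl v i| ≤ ρ := fun i hi =>
      hB2 v hvE i (le_trans (le_trans (le_max_right _ _) hn'm) hi)
    have h8 := tail_bound ξ hξ v n' ρ h7
    have h9 : ξ n' * tl v n' ≤ ρ := by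
      have h10 := h7 n' le_rfl
      have h11 : ξ n' * tl v n' ≤ |ξ n' * tl v n'| := le_abs_self _
      rw [abs_mul, hξ, one_mul] at h11
      linarith
    have h12 : δ * ‖v‖ = 6 * ρ := by rw [hρ]; ring
    rw [h5, h12]
    linarith
  obtain ⟨k, hk, hkl⟩ := hB1 v hvE hvhd
  refine ⟨k, hk.trans (le_max_left _ _), ?_⟩
  have := hlow k
  linarith

/-- On a finite-dimensional subspace the norm is a maximum of finitely many `N k`. -/
lemma finite_max (E : Submodule ℝ Y) [FiniteDimensional ℝ E] :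
    ∃ m : ℕ, ∀ z ∈ E, ∀ n, ∃ k ≤ m, N n z ≤ N k z := by
  have hcomp : IsCompact ((E : Set Y) ∩ Metric.closedBall 0 1 ∩ {v | ‖v‖ = 1}) :=
    (isCompact_ball E).inter_right (isClosed_eq continuous_norm continuous_const)
  have key : ∃ m : ℕ, ∀ z ∈ ((E : Set Y) ∩ Metric.closedBall 0 1 ∩ {v | ‖v‖ = 1}), z ∈ E →
      ∀ n, ∃ k ≤ m, N n z ≤ N k z := by
    refine hcomp.induction_on (p := fun s => ∃ m : ℕ, ∀ z ∈ s, z ∈ E →
      ∀ n, ∃ k ≤ m, N n z ≤ N k z) ⟨0, by simp⟩ ?_ ?_ ?_
    · rintro s t hst ⟨m, hm⟩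
      exact ⟨m, fun z hz => hm z (hst hz)⟩
    · rintro s t ⟨m, hm⟩ ⟨m', hm'⟩
      refine ⟨max m m', fun z hz hzE n => ?_⟩
      rcases hz with hz | hz
      · obtain ⟨k, hk, hkl⟩ := hm z hz hzE n
        exact ⟨k, hk.trans (le_max_left _ _), hkl⟩
      · obtain ⟨k, hk, hkl⟩ := hm' z hz hzE n
        exact ⟨k, hk.trans (le_max_right _ _), hkl⟩
    · rintro x ⟨⟨hxE, _⟩, hx1⟩
      have hx1' : ‖x‖ = 1 := hx1
      have hle : Ninf x ≤ 1 := by
        refine le_of_tendsto (N_tendsto x) (Eventually.of_forall fun n => ?_)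
        rw [← hx1']; exact N_le_norm n x
      rcases hle.lt_or_eq with hlt | heq
      · obtain ⟨r, hr, m, hm⟩ := local_A x hx1' hlt
        refine ⟨Metric.ball x r, mem_nhdsWithin_of_mem_nhds (Metric.ball_mem_nhds x hr), m, ?_⟩
        intro z hz _ n
        rw [Metric.mem_ball, dist_eq_norm] at hz
        exact hm z hz n
      · obtain ⟨r, hr, m, hm⟩ := local_B E x hxE hx1' heq
        refine ⟨Metric.ball x r, mem_nhdsWithin_of_mem_nhds (Metric.ball_mem_nhds x hr), m, ?_⟩
        intro z hz hzE n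
        rw [Metric.mem_ball, dist_eq_norm] at hz
        exact hm z hzE hz n
  obtain ⟨m, hm⟩ := key
  refine ⟨m, fun z hz n => ?_⟩
  by_cases hz0 : z = 0
  · refine ⟨0, Nat.zero_le _, ?_⟩
    have h1 : N n z ≤ ‖z‖ := N_le_norm n z
    rw [hz0, norm_zero] at h1
    rw [hz0]
    exact h1.trans (N_nonneg 0 _)
  · have hnz : 0 < ‖z‖ := norm_pos_iff.2 hz0
    have hn1 : ‖(‖z‖⁻¹ • z)‖ = 1 := by
      rw [norm_smul, norm_inv, norm_norm, inv_mul_cancel₀ hnz.ne']
    obtain ⟨k, hk, hkl⟩ := hm (‖z‖⁻¹ • z) ⟨⟨E.smul_mem _ hz, by simp [hn1]⟩, hn1⟩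
      (E.smul_mem _ hz) n
    refine ⟨k, hk, ?_⟩
    rw [N_smul, N_smul] at hkl
    exact le_of_mul_le_mul_left hkl (abs_pos.2 (inv_pos.2 hnz).ne')

lemma sign_lin (a b : ℝ) (h : SignType.sign a = SignType.sign b) :
    ∀ᶠ t in 𝓝 (0 : ℝ), |a + t * (b - a)| = |a| + t * (|b| - |a|) := by
  have hcont : Tendsto (fun t : ℝ => a + t * (b - a)) (𝓝 0) (𝓝 (a + 0 * (b - a))) := by
    have : Continuous (fun t : ℝ => a + t * (b - a)) := by fun_prop
    exact this.tendsto 0
  rw [zero_mul, add_zero] at hcont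
  rcases lt_trichotomy a 0 with ha | ha | ha
  · have hb : b < 0 := by
      rw [sign_neg ha] at h
      exact sign_eq_neg_one_iff.1 h.symm
    filter_upwards [hcont.eventually (gt_mem_nhds ha)] with t ht
    rw [abs_of_neg ht, abs_of_neg ha, abs_of_neg hb]; ring
  · have hb : b = 0 := by
      rw [ha, sign_zero] at h
      exact sign_eq_zero_iff.1 h.symm
    refine Eventually.of_forall fun t => ?_
    rw [ha, hb]; simp
  · have hb : 0 < b := by
      rw [sign_pos ha] at h
      exact sign_eq_one_iff.1 h.symm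
    filter_upwards [hcont.eventually (lt_mem_nhds ha)] with t ht
    rw [abs_of_pos ht, abs_of_pos ha, abs_of_pos hb]

lemma N_lin (m : ℕ) (x x' : Y) (h1 : SignType.sign (hd x) = SignType.sign (hd x'))
    (h2 : ∀ i < m, SignType.sign (tl x i) = SignType.sign (tl x' i)) :
    ∀ᶠ t in 𝓝 (0 : ℝ), ∀ k ≤ m, N k (x + t • (x' - x)) = N k x + t * (N k x' - N k x) := by
  have e1 := sign_lin _ _ h1
  have e2 : ∀ᶠ t in 𝓝 (0 : ℝ), ∀ i ∈ Finset.range m,
      |tl x i + t * (tl x' i - tl x i)| = |tl x i| + t * (|tl x' i| - |tl x i|) := by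
    rw [Filter.eventually_all_finset]
    intro i hi
    exact sign_lin _ _ (h2 i (Finset.mem_range.1 hi))
  filter_upwards [e1, e2] with t g1 g2 k hk
  cases k with
  | zero =>
    rw [N_zero', N_zero', N_zero', hd_add, hd_smul, hd_sub, g1]
  | succ k =>
    have g3 : ∀ i < k + 1, |tl (x + t • (x' - x)) i| =
        |tl x i| + t * (|tl x' i| - |tl x i|) := by
      intro i hi
      rw [tl_add, tl_smul, tl_sub]
      exact g2 i (Finset.mem_range.2 (by omega))
    rw [N_succ, N_succ, N_succ, hd_add, hd_smul, hd_sub, g1, g3 k (by omega)]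
    have g4 : ∑ i ∈ Finset.range k, q i * |tl (x + t • (x' - x)) i| =
        ∑ i ∈ Finset.range k, q i * |tl x i| + t * (∑ i ∈ Finset.range k, q i * |tl x' i|
          - ∑ i ∈ Finset.range k, q i * |tl x i|) := by
      rw [← Finset.sum_sub_distrib, Finset.mul_sum, ← Finset.sum_add_distrib]
      refine Finset.sum_congr rfl fun i hi => ?_
      rw [g3 i (by have := Finset.mem_range.1 hi; omega)]; ring
    rw [g4]; ring

lemma extremePoints_finite (E : Submodule ℝ Y) [FiniteDimensional ℝ E] :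
    (((E : Set Y) ∩ Metric.closedBall 0 1).extremePoints ℝ).Finite := by
  obtain ⟨m, hm⟩ := finite_max E
  let D : Y → SignType × (Fin m → SignType) × (Fin (m + 1) → Prop) := fun x =>
    (SignType.sign (hd x), fun i => SignType.sign (tl x i), fun k => N k x = 1)
  refine Set.Finite.of_finite_image (f := D) (Set.toFinite _) ?_
  intro x hx x' hx' hD
  by_contra hne
  rw [mem_extremePoints] at hx hx'
  obtain ⟨⟨hxE, hxb⟩, hext⟩ := hx
  obtain ⟨⟨hxE', hxb'⟩, -⟩ := hx'
  rw [Metric.mem_closedBall, dist_zero_right] at hxb hxb'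
  have hD1 : SignType.sign (hd x) = SignType.sign (hd x') := congrArg Prod.fst hD
  have hD2 : ∀ i < m, SignType.sign (tl x i) = SignType.sign (tl x' i) := by
    intro i hi
    have := congrArg (fun p => p.2.1 ⟨i, hi⟩) hD
    exact this
  have hD3 : ∀ k ≤ m, N k x = 1 → N k x' = 1 := by
    intro k hk h
    have := congrArg (fun p => p.2.2 ⟨k, by omega⟩) hD
    have h2 : (N k x = 1) = (N k x' = 1) := this
    rwa [← h2]
  have e1 := N_lin m x x' hD1 hD2
  have e2 : ∀ᶠ t in 𝓝 (0 : ℝ), ∀ k ∈ Finset.range (m + 1),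
      N k x + t * (N k x' - N k x) ≤ 1 := by
    rw [Filter.eventually_all_finset]
    intro k hk
    have hkm : k ≤ m := by have := Finset.mem_range.1 hk; omega
    rcases ((N_le_norm k x).trans hxb).lt_or_eq with hlt | heq
    · have hcont : Tendsto (fun t : ℝ => N k x + t * (N k x' - N k x)) (𝓝 0)
          (𝓝 (N k x + 0 * (N k x' - N k x))) := by
        have : Continuous (fun t : ℝ => N k x + t * (N k x' - N k x)) := by fun_prop
        exact this.tendsto 0
      rw [zero_mul, add_zero] at hcont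
      filter_upwards [hcont.eventually (gt_mem_nhds hlt)] with t ht using ht.le
    · refine Eventually.of_forall fun t => ?_
      rw [heq, hD3 k hkm heq]; simp
  have e3 : ∀ᶠ t in 𝓝 (0 : ℝ), x + t • (x' - x) ∈ (E : Set Y) ∩ Metric.closedBall 0 1 := by
    filter_upwards [e1, e2] with t g1 g2
    have hmem : x + t • (x' - x) ∈ E := E.add_mem hxE (E.smul_mem _ (E.sub_mem hxE' hxE))
    refine ⟨hmem, ?_⟩
    rw [Metric.mem_closedBall, dist_zero_right]
    refine norm_le_of fun n => ?_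
    obtain ⟨k, hk, hkl⟩ := hm _ hmem n
    refine hkl.trans ?_
    rw [g1 k hk]
    exact g2 k (Finset.mem_range.2 (by omega))
  have e4 : ∀ᶠ t in 𝓝 (0 : ℝ), x + (-t) • (x' - x) ∈ (E : Set Y) ∩ Metric.closedBall 0 1 := by
    have : Tendsto (fun t : ℝ => -t) (𝓝 0) (𝓝 0) := by
      have := (continuous_neg (G := ℝ)).tendsto 0
      rwa [neg_zero] at this
    exact this.eventually e3
  obtain ⟨ε, hε, hball⟩ := Metric.eventually_nhds_iff_ball.1 (e3.and e4)
  have hmemε : (ε / 2) ∈ Metric.ball (0 : ℝ) ε := by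
    rw [Metric.mem_ball, dist_zero_right, Real.norm_eq_abs, abs_of_pos (by positivity)]
    linarith
  obtain ⟨h5, h6⟩ := hball _ hmemε
  have h7 := hext _ h5 _ h6 (by
    rw [openSegment_eq_image]
    refine ⟨1 / 2, ⟨by norm_num, by norm_num⟩, ?_⟩
    simp only
    rw [neg_smul]
    module)
  have h8 : (ε / 2) • (x' - x) = 0 := by
    have := h7.1
    simpa using this
  rcases smul_eq_zero.1 h8 with h9 | h9
  · linarith
  · exact hne (sub_eq_zero.1 h9).symm

theorem isPolyhedral_Y : IsPolyhedral Y := by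
  intro E hE
  refine ⟨_, extremePoints_finite E, ?_⟩
  have hconv : Convex ℝ ((E : Set Y) ∩ Metric.closedBall 0 1) :=
    E.convex.inter (convex_closedBall 0 1)
  have h1 := closure_convexHull_extremePoints (isCompact_ball E) hconv
  rw [((extremePoints_finite E).isClosed_convexHull ℝ).closure_eq] at h1
  exact h1.symm

/-- the head coordinate as a functional -/
noncomputable def hdL : Y →L[ℝ] ℝ :=
  LinearMap.mkContinuous { toFun := hd, map_add' := hd_add, map_smul' := hd_smul } 1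
    (fun x => by rw [one_mul]; exact abs_hd_le x)

/-- the tail coordinates as functionals -/
noncomputable def tlL (i : ℕ) : Y →L[ℝ] ℝ :=
  LinearMap.mkContinuous
    { toFun := fun x => tl x i
      map_add' := fun x y => tl_add x y i
      map_smul' := fun a x => tl_smul a x i } 1
    (fun x => by rw [one_mul]; exact abs_tl_le x i)

lemma hdL_apply (x : Y) : hdL x = hd x := rfl
lemma tlL_apply (i : ℕ) (x : Y) : tlL i x = tl x i := rfl

/-- enumeration of the rationals -/
noncomputable def rat : ℕ → ℚ := Classical.choose (exists_surjective_nat ℚ)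

lemma rat_surj : Function.Surjective rat := Classical.choose_spec (exists_surjective_nat ℚ)

/-- signs -/
noncomputable def sg (r : ℝ) (i : ℕ) : ℝ := if r < (rat i : ℝ) then -1 else 1

lemma abs_sg (r : ℝ) (i : ℕ) : |sg r i| = 1 := by
  unfold sg; split_ifs <;> simp

lemma sg_mul_self (r : ℝ) (i : ℕ) : sg r i * sg r i = 1 := by
  unfold sg; split_ifs <;> simp

lemma sg_inj {r r' : ℝ} (h : ∀ i, sg r i = sg r' i) : r = r' := by
  by_contra hne
  rcases lt_or_gt_of_ne hne with hlt | hlt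
  · obtain ⟨p, hp1, hp2⟩ := exists_rat_btwn hlt
    obtain ⟨i, rfl⟩ := rat_surj p
    have := h i
    unfold sg at this
    rw [if_pos hp1, if_neg (not_lt.2 hp2.le)] at this
    norm_num at this
  · obtain ⟨p, hp1, hp2⟩ := exists_rat_btwn hlt
    obtain ⟨i, rfl⟩ := rat_surj p
    have := h i
    unfold sg at this
    rw [if_pos hp1, if_neg (not_lt.2 hp2.le)] at this
    norm_num at this

lemma measurable_sg (i : ℕ) : Measurable fun r => sg r i :=
  Measurable.ite measurableSet_Iio measurable_const measurable_const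

/-- The extreme points. -/
noncomputable def pt (r : ℝ) : Y :=
  mk 1 (mkC0 (fun i => sg r i * yv i) (by
    rw [tendsto_zero_iff_norm_tendsto_zero]
    have : (fun i => ‖sg r i * yv i‖) = yv := by
      funext i
      rw [Real.norm_eq_abs, abs_mul, abs_sg, one_mul, abs_of_pos (yv_pos i)]
    rw [this]
    exact tendsto_yv))

@[simp] lemma hd_pt (r : ℝ) : hd (pt r) = 1 := rfl
@[simp] lemma tl_pt (r : ℝ) (i : ℕ) : tl (pt r) i = sg r i * yv i := rfl

lemma abs_tl_pt (r : ℝ) (i : ℕ) : |tl (pt r) i| = yv i := by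
  rw [tl_pt, abs_mul, abs_sg, one_mul, abs_of_pos (yv_pos i)]

lemma N_pt (r : ℝ) (n : ℕ) : N n (pt r) = 1 := by
  cases n with
  | zero => rw [N_zero', hd_pt, abs_one]
  | succ n =>
    rw [N_succ_eq, hd_pt, abs_one]
    simp [dd, hd_pt, abs_mul, abs_sg, abs_of_pos (yv_pos _)]

lemma norm_pt (r : ℝ) : ‖pt r‖ = 1 := by
  rw [norm_def]
  simp [N_pt]

/-- norming functionals at `pt r` -/
noncomputable def H (r : ℝ) (n : ℕ) (v : Y) : ℝ :=
  c n * hd v + (∑ i ∈ Finset.range n, q i * (sg r i * tl v i) + sg r n * tl v n)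

lemma H_le (r : ℝ) (n : ℕ) (v : Y) : H r n v ≤ ‖v‖ := by
  refine le_trans ?_ (N_le_norm (n + 1) v)
  rw [N_succ]
  unfold H
  have hterm : ∀ i, sg r i * tl v i ≤ |tl v i| := by
    intro i
    calc sg r i * tl v i ≤ |sg r i * tl v i| := le_abs_self _
      _ = |tl v i| := by rw [abs_mul, abs_sg, one_mul]
  have h1 : c n * hd v ≤ c n * |hd v| := mul_le_mul_of_nonneg_left (le_abs_self _) (c_nonneg n)
  have h2 : ∑ i ∈ Finset.range n, q i * (sg r i * tl v i) ≤
      ∑ i ∈ Finset.range n, q i * |tl v i| :=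
    Finset.sum_le_sum fun i _ => mul_le_mul_of_nonneg_left (hterm i) (q_pos i).le
  have h3 := hterm n
  linarith

lemma H_pt (r : ℝ) (n : ℕ) : H r n (pt r) = 1 := by
  unfold H
  simp only [hd_pt, tl_pt, ← mul_assoc, sg_mul_self]
  unfold c
  simp only [mul_one, one_mul]
  ring

/-- If all functionals norm `v`, then `v` is a multiple of `pt r`. -/
lemma eq_of_normed (r : ℝ) (v : Y) (h0 : hd v = ‖v‖) (h : ∀ n, H r n v = ‖v‖) :
    v = ‖v‖ • pt r := by
  have hall : ∀ n, sg r n * tl v n = ‖v‖ * yv n := by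
    intro n
    induction n using Nat.strong_induction_on with
    | _ n ih =>
      have h1 := h n
      unfold H at h1
      have h2 : ∑ i ∈ Finset.range n, q i * (sg r i * tl v i) =
          ‖v‖ * ∑ i ∈ Finset.range n, q i * yv i := by
        rw [Finset.mul_sum]
        refine Finset.sum_congr rfl fun i hi => ?_
        rw [ih i (Finset.mem_range.1 hi)]; ring
      rw [h2, h0] at h1
      unfold c at h1
      linarith
  apply Y_ext
  · rw [hd_smul, hd_pt, mul_one, h0]
  · intro i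
    rw [tl_smul, tl_pt]
    have h1 := hall i
    calc tl v i = (sg r i * sg r i) * tl v i := by rw [sg_mul_self, one_mul]
      _ = sg r i * (sg r i * tl v i) := by ring
      _ = sg r i * (‖v‖ * yv i) := by rw [h1]
      _ = ‖v‖ * (sg r i * yv i) := by ring

/-- Pointwise consequence of an optimal representation. -/
lemma pointwise (r : ℝ) (w : ℕ → Y) (hw : HasSum w (pt r)) (hn : HasSum (fun i => ‖w i‖) 1) :
    ∀ i, w i = ‖w i‖ • pt r := by
  have hhd : HasSum (fun i => hd (w i)) 1 := by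
    have := hdL.hasSum hw
    simpa [hdL_apply] using this
  have htl : ∀ j, HasSum (fun i => tl (w i) j) (tl (pt r) j) := fun j => by
    have := (tlL j).hasSum hw
    simpa only [tlL_apply] using this
  have hH : ∀ n, HasSum (fun i => H r n (w i)) 1 := by
    intro n
    have h1 := (hhd.mul_left (c n)).add ((hasSum_sum (s := Finset.range n) fun j _ =>
      ((htl j).mul_left (sg r j)).mul_left (q j)).add ((htl n).mul_left (sg r n)))
    have h2 : c n * 1 + (∑ j ∈ Finset.range n, q j * (sg r j * tl (pt r) j) +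
        sg r n * tl (pt r) n) = 1 := by
      have := H_pt r n
      unfold H at this
      rwa [hd_pt] at this
    rw [h2] at h1
    exact h1
  intro i
  apply eq_of_normed
  · have h1 : HasSum (fun i => ‖w i‖ - hd (w i)) 0 := by simpa using hn.sub hhd
    have h2 := (hasSum_zero_iff_of_nonneg (fun i => by
      have := (le_abs_self _).trans (abs_hd_le (w i))
      simpa using this)).1 h1
    have := congrFun h2 i
    simp only [Pi.zero_apply] at this
    linarith
  · intro n
    have h1 : HasSum (fun i => ‖w i‖ - H r n (w i)) 0 := by simpa using hn.sub (hH n)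
    have h2 := (hasSum_zero_iff_of_nonneg (fun i => by
      have := H_le r n (w i)
      simpa using this)).1 h1
    have := congrFun h2 i
    simp only [Pi.zero_apply] at this
    linarith

/-- unit vectors -/
noncomputable def e (i : ℕ) : Y :=
  mk 0 (mkC0 (fun j => if j = i then 1 else 0) (by
    refine tendsto_const_nhds.congr' ?_
    filter_upwards [eventually_gt_atTop i] with j hj
    simp [hj.ne']))

/-- finite approximations of `pt` -/
noncomputable def ptn (n : ℕ) (r : ℝ) : Y :=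
  mk 1 0 + ∑ i ∈ Finset.range n, (sg r i * yv i) • e i

lemma hd_ptn (n : ℕ) (r : ℝ) : hd (ptn n r) = 1 := by
  have h : hdL (∑ i ∈ Finset.range n, (sg r i * yv i) • e i) = 0 := by
    rw [map_sum]
    refine Finset.sum_eq_zero fun i _ => ?_
    rw [hdL_apply, hd_smul]
    simp [e]
  unfold ptn
  rw [hd_add, ← hdL_apply (∑ i ∈ Finset.range n, (sg r i * yv i) • e i), h, hd_mk, add_zero]

lemma tl_ptn (n : ℕ) (r : ℝ) (j : ℕ) :
    tl (ptn n r) j = if j < n then sg r j * yv j else 0 := by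
  have h : tlL j (∑ i ∈ Finset.range n, (sg r i * yv i) • e i) =
      if j < n then sg r j * yv j else 0 := by
    rw [map_sum]
    have : ∀ i ∈ Finset.range n, tlL j ((sg r i * yv i) • e i) =
        if j = i then sg r i * yv i else 0 := by
      intro i _
      rw [tlL_apply, tl_smul]
      simp [e]
    rw [Finset.sum_congr rfl this, Finset.sum_ite_eq]
    simp
  unfold ptn
  rw [tl_add, ← tlL_apply j (∑ i ∈ Finset.range n, (sg r i * yv i) • e i), h]
  simp [tl_mk]

lemma ptn_tendsto (r : ℝ) : Tendsto (fun n => ptn n r) atTop (𝓝 (pt r)) := by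
  rw [tendsto_iff_norm_sub_tendsto_zero]
  have h1 : Tendsto (fun n => 3 * yv n) atTop (𝓝 (3 * 0)) := tendsto_yv.const_mul 3
  rw [mul_zero] at h1
  refine squeeze_zero (fun _ => norm_nonneg _) (fun n => ?_) h1
  refine norm_le_of fun k => N_le_of k _ _ ?_ ?_
  · rw [hd_sub, hd_ptn, hd_pt, sub_self, abs_zero]
    exact (yv_pos n).le
  · intro j
    rw [tl_sub, tl_ptn, tl_pt]
    split_ifs with hj
    · rw [sub_self, abs_zero]; exact (yv_pos n).le
    · rw [zero_sub, abs_neg, abs_mul, abs_sg, one_mul, abs_of_pos (yv_pos j)]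
      exact yv_anti (not_lt.1 hj)

lemma stronglyMeasurable_pt : StronglyMeasurable pt := by
  refine stronglyMeasurable_of_tendsto atTop (f := fun n r => ptn n r) (fun n => ?_)
    (tendsto_pi_nhds.2 ptn_tendsto)
  unfold ptn
  refine stronglyMeasurable_const.add ?_
  refine Finset.stronglyMeasurable_fun_sum _ fun i _ => ?_
  exact (((measurable_sg i).mul_const _).stronglyMeasurable).smul_const _

/-- Lebesgue measure on the unit interval. -/
noncomputable abbrev leb : Measure ℝ := volume.restrict (Set.Icc 0 1)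

lemma memLp_pt : MemLp pt 1 leb :=
  MemLp.of_bound stronglyMeasurable_pt.aestronglyMeasurable 1
    (Eventually.of_forall fun r => (norm_pt r).le)

lemma pt_line_subsingleton (y : Y) : {r : ℝ | ∃ a : ℝ, pt r = a • y}.Subsingleton := by
  rintro r ⟨a, ha⟩ r' ⟨a', ha'⟩
  have h1 : 1 = a * hd y := by
    have := congrArg hd ha
    simpa using this
  have h2 : 1 = a' * hd y := by
    have := congrArg hd ha'
    simpa using this
  have hy : hd y ≠ 0 := by
    intro h; rw [h, mul_zero] at h1; exact one_ne_zero h1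
  have haa : a = a' := mul_right_cancel₀ hy (h1.symm.trans h2)
  have hpt : pt r = pt r' := by rw [ha, ha', haa]
  apply sg_inj
  intro i
  have := congrArg (fun x => tl x i) hpt
  simp only [tl_pt] at this
  exact mul_right_cancel₀ (yv_pos i).ne' this

lemma not_normAttaining : ¬ IsNormAttaining (memLp_pt.toLp pt) := by
  rintro ⟨g, y, hsum, hnorm⟩
  have hu := memLp_pt.coeFn_toLp
  have hnu : ‖memLp_pt.toLp pt‖ = 1 := by
    rw [L1.norm_eq_integral_norm]
    have h1 : (fun a => ‖(memLp_pt.toLp pt) a‖) =ᵐ[leb] fun _ => (1 : ℝ) := by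
      filter_upwards [hu] with r hr
      rw [hr, norm_pt]
    rw [integral_congr_ae h1]
    simp
  rw [hnu] at hnorm
  -- integral of the sum of norms
  have hint : ∫⁻ ω, ∑' i, ‖g i ω • y i‖ₑ ∂leb = 1 := by
    rw [lintegral_tsum]
    · have h1 : ∀ i, ∫⁻ ω, ‖g i ω • y i‖ₑ ∂leb = ENNReal.ofReal (‖g i‖ * ‖y i‖) := by
        intro i
        simp only [enorm_smul]
        rw [lintegral_mul_const'' _ (Lp.aestronglyMeasurable (g i)).enorm,
          ← eLpNorm_one_eq_lintegral_enorm, ← Lp.enorm_def,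
          ENNReal.ofReal_mul (norm_nonneg _), ofReal_norm, ofReal_norm]
      simp only [h1]
      rw [← ENNReal.ofReal_tsum_of_nonneg (fun i => by positivity) hnorm.summable, hnorm.tsum_eq,
        ENNReal.ofReal_one]
    · intro i
      exact ((Lp.aestronglyMeasurable (g i)).smul_const _).enorm
  have hle : (fun _ => (1 : ℝ≥0∞)) ≤ᵐ[leb] fun ω => ∑' i, ‖g i ω • y i‖ₑ := by
    filter_upwards [hsum, hu] with ω h1 h2
    rw [h2] at h1
    have h3 : ‖pt ω‖ₑ ≤ ∑' i, ‖g i ω • y i‖ₑ := by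
      rw [← h1.tsum_eq]
      exact enorm_tsum_le_tsum_enorm
    have h4 : ‖pt ω‖ₑ = 1 := by
      rw [← ofReal_norm, norm_pt, ENNReal.ofReal_one]
    rwa [h4] at h3
  have hae : (fun _ => (1 : ℝ≥0∞)) =ᵐ[leb] fun ω => ∑' i, ‖g i ω • y i‖ₑ := by
    refine ae_eq_of_ae_le_of_lintegral_le hle ?_ ?_ ?_
    · simp
    · exact AEMeasurable.tsum fun i =>
        ((Lp.aestronglyMeasurable (g i)).smul_const _).enorm
    · rw [hint]; simp
  have hmem : ∀ᵐ ω ∂leb, ω ∈ ⋃ i, {r : ℝ | ∃ a : ℝ, pt r = a • y i} := by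
    filter_upwards [hsum, hu, hae] with ω h1 h2 h3
    rw [h2] at h1
    have h4 : HasSum (fun i => ‖g i ω • y i‖) 1 := by
      have h5 : HasSum (fun i => ((‖g i ω • y i‖₊ : NNReal) : ℝ≥0∞)) ((1 : NNReal) : ℝ≥0∞) := by
        have h6 : ∑' i, ((‖g i ω • y i‖₊ : NNReal) : ℝ≥0∞) = 1 := h3.symm
        have h8 : HasSum (fun i => ((‖g i ω • y i‖₊ : NNReal) : ℝ≥0∞))
            (∑' i, ((‖g i ω • y i‖₊ : NNReal) : ℝ≥0∞)) := ENNReal.summable.hasSum
        simpa only [h6, ENNReal.coe_one] using h8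
      rw [ENNReal.hasSum_coe] at h5
      have h7 := NNReal.hasSum_coe.2 h5
      simpa using h7
    have h5 := pointwise ω _ h1 h4
    have h6 : ∃ i, ‖g i ω • y i‖ ≠ 0 := by
      by_contra hcon
      push Not at hcon
      rw [show (fun i => ‖g i ω • y i‖) = fun _ => (0 : ℝ) from funext hcon] at h4
      exact zero_ne_one (hasSum_zero.unique h4)
    obtain ⟨i, hi⟩ := h6
    refine Set.mem_iUnion.2 ⟨i, (‖g i ω • y i‖)⁻¹ * g i ω, ?_⟩
    have h7 := h5 i
    calc pt ω = (‖g i ω • y i‖)⁻¹ • (‖g i ω • y i‖ • pt ω) := by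
          rw [smul_smul, inv_mul_cancel₀ hi, one_smul]
      _ = (‖g i ω • y i‖)⁻¹ • (g i ω • y i) := by rw [← h7]
      _ = ((‖g i ω • y i‖)⁻¹ * g i ω) • y i := by rw [smul_smul]
  have hcount : (⋃ i, {r : ℝ | ∃ a : ℝ, pt r = a • y i}).Countable :=
    Set.countable_iUnion fun i => (pt_line_subsingleton (y i)).countable
  have hnull : leb (⋃ i, {r : ℝ | ∃ a : ℝ, pt r = a • y i}) = 0 := hcount.measure_zero leb
  have h8 : leb Set.univ = 0 := by
    have h9 : leb (⋃ i, {r : ℝ | ∃ a : ℝ, pt r = a • y i})ᶜ = 0 := hmem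
    have := measure_union_le (μ := leb) (⋃ i, {r : ℝ | ∃ a : ℝ, pt r = a • y i})
      (⋃ i, {r : ℝ | ∃ a : ℝ, pt r = a • y i})ᶜ
    rw [Set.union_compl_self, hnull, h9, add_zero] at this
    exact le_antisymm this zero_le
  simp [leb] at h8

theorem main : ∃ (Y : Type) (_ : NormedAddCommGroup Y) (_ : NormedSpace ℝ Y)
    (_ : CompleteSpace Y), IsPolyhedral Y ∧
      ∃ u : Lp Y 1 (volume.restrict (Set.Icc (0 : ℝ) 1)), ¬ IsNormAttaining u :=
  ⟨Y, inferInstance, inferInstance, inferInstance, isPolyhedral_Y, _, not_normAttaining⟩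

end Pool.Agent.Lib.MP_ace873
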